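import Pool.Graph.R_seed8.Z125.UN.Dim2

/-!
# Points on the projective line with prescribed harmonic quadruples

The spaces of `n` points of the projective line, different from each other and from `0`, `1`, `∞`,
such that prescribed quadruples of the `n + 3` points are harmonic. They are closed subschemes of the
moduli space `M_{0, n+3}` of `n + 3` different points of the projective line.
-/

set_option autoImplicit false

open MvPolynomial CategoryTheory AlgebraicGeometry Pool.Agent.Y116.UV Pool.Agent.Z125.UN

namespace Pool.Agent.H502.HQ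

variable (k : Type) [CommRing k] {n : ℕ}

/-- The homogeneous coordinates of the `n + 3` points: `inl 0`, `inl 1`, `inl 2` are the points
`∞ = (1 : 0)`, `0 = (0 : 1)`, `1 = (1 : 1)`, and `inr i` is the point `(x_i : 1)`. -/
noncomputable def pt : Fin 3 ⊕ Fin n → MvPolynomial (Fin n) k × MvPolynomial (Fin n) k :=
  Sum.elim ![(1, 0), (0, 1), (1, 1)] fun i => (X i, 1)

/-- The bracket `[i j]`, the determinant of the homogeneous coordinates of the points `i` and `j`. -/
noncomputable def br (i j : Fin 3 ⊕ Fin n) : MvPolynomial (Fin n) k :=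
  (pt k i).1 * (pt k j).2 - (pt k j).1 * (pt k i).2

/-- The quadruple `(h 0, h 1; h 2, h 3)` of different points is harmonic (its cross ratio is `-1`) if
and only if `[h0 h2] [h1 h3] + [h0 h3] [h1 h2] = 0`. -/
noncomputable def hq (h : Fin 4 → Fin 3 ⊕ Fin n) : MvPolynomial (Fin n) k :=
  br k (h 0) (h 2) * br k (h 1) (h 3) + br k (h 0) (h 3) * br k (h 1) (h 2)

/-- The product of the brackets `[i j]`, `i ≠ j`: the `n + 3` points are different if and only if it
is not zero. -/
noncomputable def disc (n : ℕ) : MvPolynomial (Fin n) k :=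
  ∏ i : Fin 3 ⊕ Fin n, ∏ j : Fin 3 ⊕ Fin n, if i = j then 1 else br k i j

/-- Every quadruple of the set `H` contains `∞` or `1`. -/
def Meets (H : Finset (Fin 4 → Fin 3 ⊕ Fin n)) : Prop :=
  ∀ h ∈ H, ∃ i, h i = Sum.inl 0 ∨ h i = Sum.inl 2

/-- The space of the `n` points `x_i` of the projective line over `k`, different from each other and
from `0`, `1`, `∞`, such that the quadruples of the set `H` are harmonic. -/
noncomputable def harmS (n : ℕ) (H : Finset (Fin 4 → Fin 3 ⊕ Fin n)) : Sch k :=
  aff k (Localization.Away
    (Ideal.Quotient.mk (Ideal.span (Set.range fun h : H => hq k h.1)) (disc k n)))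

/-- The space of the `n` points `x_i` of the projective line over `k`, different from each other and
from `0`, `1`, `∞`, such that the quadruples of the set `H` are harmonic and `x_i = c` for the pairs
`(i, c)` of the set `K`. -/
noncomputable def harmSC (n : ℕ) (H : Finset (Fin 4 → Fin 3 ⊕ Fin n)) (K : Finset (Fin n × k)) :
    Sch k :=
  aff k (Localization.Away (Ideal.Quotient.mk (Ideal.span (Set.range
    (Sum.elim (fun h : H => hq k h.1) fun c : K => X c.1.1 - C c.1.2))) (disc k n)))

lemma harmS_eq (H : Finset (Fin 4 → Fin 3 ⊕ Fin n)) :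
    harmS k n H = aff k (Pc (fun h : H => hq k h.1) (disc k n)) := rfl

lemma harmSC_eq (H : Finset (Fin 4 → Fin 3 ⊕ Fin n)) (K : Finset (Fin n × k)) :
    harmSC k n H K =
      aff k (Pc (Sum.elim (fun h : H => hq k h.1) fun c : K => X c.1.1 - C c.1.2) (disc k n)) := rfl

end Pool.Agent.H502.HQ
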