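import Pool.Agent.H502.HQ.Defs
import Pool.Graph.R_seed8.Q193.LT.Prime

/-!
# The algebra of harmonic quadruples

Von Staudt's constructions: sums and products from harmonic quadruples.
-/

set_option autoImplicit false

open MvPolynomial

namespace Pool.Agent.H502.HQ

variable {k : Type} [Field k] {A : Type} [CommRing A] [Algebra k A]

/-- `x` respects the constants in `Cst` and the harmonic quadruples in `S`. -/
structure HRep (Cst : Set k) (S : Finset A) {B : Type} [CommRing B] [Algebra k B] (x : A → B) :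
    Prop where
  zero : x 0 = 0
  one : x 1 = 1
  const : ∀ c ∈ Cst, algebraMap k A c ∈ S → x (algebraMap k A c) = algebraMap k B c
  mid : ∀ s ∈ S, ∀ t ∈ S, ∀ m ∈ S, s ≠ t → s ≠ m → t ≠ m → s + t = 2 * m → x s + x t = 2 * x m
  quad : ∀ s ∈ S, ∀ u ∈ S, ∀ v ∈ S, s ≠ 1 → s ≠ u → s ≠ v → 1 ≠ u → 1 ≠ v → u ≠ v →
    (s - u) * (1 - v) + (s - v) * (1 - u) = 0 →
    (x s - x u) * (1 - x v) + (x s - x v) * (1 - x u) = 0

variable {Cst : Set k} {S S' : Finset A} {m : ℕ} {a : Fin m → A}

lemma HRep.mono {B : Type} [CommRing B] [Algebra k B] {x : A → B} (h : HRep Cst S' x)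
    (hS : S ⊆ S') : HRep Cst S x where
  zero := h.zero
  one := h.one
  const := fun c hc hm => h.const c hc (hS hm)
  mid := fun s hs t ht m hm => h.mid s (hS hs) t (hS ht) m (hS hm)
  quad := fun s hs u hu v hv => h.quad s (hS hs) u (hS hu) v (hS hv)

/-- The value of `p` is in `S` and all `x` respect the value of `p`. -/
def Real (Cst : Set k) (a : Fin m → A) (S : Finset A) (p : MvPolynomial (Fin m) k) : Prop :=
  aeval a p ∈ S ∧ ∀ (B : Type) [CommRing B] [Algebra k B] (x : A → B), HRep Cst S x →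
    aeval (fun i => x (a i)) p = x (aeval a p)

lemma Real.mono {p : MvPolynomial (Fin m) k} (h : Real Cst a S p) (hS : S ⊆ S') :
    Real Cst a S' p :=
  ⟨hS h.1, fun B _ _ x hx => h.2 B x (hx.mono hS)⟩

/-- `S` contains `0`, `1` and the generators, and all its elements are values of realized
polynomials. -/
structure Full (Cst : Set k) (a : Fin m → A) (S : Finset A) : Prop where
  zero : 0 ∈ S
  one : 1 ∈ S
  gen : ∀ i, a i ∈ S
  all : ∀ s ∈ S, ∃ p, aeval a p = s ∧ Real Cst a S p

open Classical in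
lemma step (hS : Full Cst a S) {p : MvPolynomial (Fin m) k}
    (h : ∀ (B : Type) [CommRing B] [Algebra k B] (x : A → B),
      HRep Cst (insert (aeval a p) S) x → aeval (fun i => x (a i)) p = x (aeval a p)) :
    ∃ S', S ⊆ S' ∧ Full Cst a S' ∧ Real Cst a S' p := by
  have hsub : S ⊆ insert (aeval a p) S := Finset.subset_insert _ _
  have hp : Real Cst a (insert (aeval a p) S) p :=
    ⟨Finset.mem_insert_self _ _, fun B _ _ x hx => h B x hx⟩
  refine ⟨insert (aeval a p) S, hsub, ⟨hsub hS.zero, hsub hS.one, fun i => hsub (hS.gen i), ?_⟩, hp⟩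
  intro s hs
  rcases Finset.mem_insert.mp hs with rfl | hs
  · exact ⟨p, rfl, hp⟩
  · obtain ⟨q, hq, hr⟩ := hS.all s hs
    exact ⟨q, hq, hr.mono hsub⟩

section gates

variable [IsDomain A] (h2 : (2 : k) ≠ 0)

include h2

lemma two_ne (B : Type) [CommRing B] [Algebra k B] : IsUnit (2 : B) := by
  have h : IsUnit (2 : k) := isUnit_iff_ne_zero.mpr h2
  have h3 := h.map (algebraMap k B)
  rwa [map_ofNat] at h3

lemma mid_gate {B : Type} [CommRing B] [Algebra k B] {x : A → B} (hx : HRep Cst S x) {s t m : A}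
    (hs : s ∈ S) (ht : t ∈ S) (hm : m ∈ S) (h : s + t = 2 * m) : x s + x t = 2 * x m := by
  have h3 : (2 : A) ≠ 0 := (two_ne h2 A).ne_zero
  by_cases hst : s = t
  · subst hst
    have h4 : s = m := by
      apply mul_left_cancel₀ h3
      rw [← h]
      ring
    subst h4
    ring
  · refine hx.mid s hs t ht m hm hst ?_ ?_ h
    · rintro rfl
      exact hst (by linear_combination -h)
    · rintro rfl
      exact hst (by linear_combination h)

lemma neg_gate {B : Type} [CommRing B] [Algebra k B] {x : A → B} (hx : HRep Cst S x) {s t : A}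
    (h0 : (0 : A) ∈ S) (hs : s ∈ S) (ht : t ∈ S) (h : s + t = 0) : x t = - x s := by
  have h3 := mid_gate h2 hx hs ht h0 (by rw [h, mul_zero])
  rw [hx.zero] at h3
  linear_combination h3

lemma sq_gate {B : Type} [CommRing B] [Algebra k B] {x : A → B} (hx : HRep Cst S x) {u v w : A}
    (h0 : (0 : A) ∈ S) (h1 : (1 : A) ∈ S) (hu : u ∈ S) (hv : v ∈ S) (hw : w ∈ S)
    (huw : u + w = 0) (huv : v = u ^ 2) : x v = x u ^ 2 := by
  have hn := neg_gate h2 hx h0 hu hw huw
  have h3 : (2 : A) ≠ 0 := (two_ne h2 A).ne_zero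
  have hw' : w = -u := by linear_combination huw
  subst hw' huv
  by_cases hu0 : u = 0
  · subst hu0
    simp [hx.zero]
  by_cases hu1 : u = 1
  · subst hu1
    simp [hx.one]
  by_cases hu2 : u = -1
  · subst hu2
    rw [neg_neg, hx.one] at hn
    have h4 : ((-1 : A)) ^ 2 = 1 := by ring
    rw [h4, hx.one]
    linear_combination (1 - x (-1)) * hn
  have e1 : u ^ 2 ≠ 1 := by
    intro h
    have h5 : (u - 1) * (u + 1) = 0 := by linear_combination h
    rcases mul_eq_zero.mp h5 with h6 | h6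
    · exact hu1 (by linear_combination h6)
    · exact hu2 (by linear_combination h6)
  have e2 : u ^ 2 ≠ u := by
    intro h
    have h5 : u * (u - 1) = 0 := by linear_combination h
    rcases mul_eq_zero.mp h5 with h6 | h6
    · exact hu0 h6
    · exact hu1 (by linear_combination h6)
  have e3 : u ^ 2 ≠ -u := by
    intro h
    have h5 : u * (u + 1) = 0 := by linear_combination h
    rcases mul_eq_zero.mp h5 with h6 | h6
    · exact hu0 h6
    · exact hu2 (by linear_combination h6)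
  have e4 : (1 : A) ≠ u := fun h => hu1 h.symm
  have e5 : (1 : A) ≠ -u := fun h => hu2 (by linear_combination h)
  have e6 : u ≠ -u := by
    intro h
    have h5 : 2 * u = 0 := by linear_combination h
    rcases mul_eq_zero.mp h5 with h6 | h6
    · exact h3 h6
    · exact hu0 h6
  have h7 := hx.quad (u ^ 2) hv u hu (-u) hw e1 e2 e3 e4 e5 e6 (by ring)
  rw [hn] at h7
  have h8 : 2 * x (u ^ 2) = 2 * x u ^ 2 := by linear_combination h7
  exact (two_ne h2 B).mul_left_cancel h8

/-- the polynomials that can be realized -/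
def Good (Cst : Set k) (a : Fin m → A) (p : MvPolynomial (Fin m) k) : Prop :=
  ∀ S : Finset A, Full Cst a S → ∃ S', S ⊆ S' ∧ Full Cst a S' ∧ Real Cst a S' p

lemma half_two : (C (2 : k)⁻¹ : MvPolynomial (Fin m) k) * 2 = 1 := by
  have h : (2 : MvPolynomial (Fin m) k) = C 2 := by rw [map_ofNat]
  rw [h, ← C_mul, inv_mul_cancel₀ h2, C_1]

lemma half_two_alg (B : Type) [CommRing B] [Algebra k B] : algebraMap k B (2 : k)⁻¹ * 2 = 1 := by
  have h : (2 : B) = algebraMap k B 2 := by rw [map_ofNat]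
  rw [h, ← map_mul, inv_mul_cancel₀ h2, map_one]

lemma step_mid (hS : Full Cst a S) {p q : MvPolynomial (Fin m) k} (hp : Real Cst a S p)
    (hq : Real Cst a S q) : ∃ S', S ⊆ S' ∧ Full Cst a S' ∧ Real Cst a S' (C (2 : k)⁻¹ * (p + q)) := by
  classical
  apply step hS
  intro B _ _ x hx
  have hsub : S ⊆ insert (aeval a (C (2 : k)⁻¹ * (p + q))) S := Finset.subset_insert _ _
  have h3 := mid_gate h2 hx (hsub hp.1) (hsub hq.1) (Finset.mem_insert_self _ _) (by
    rw [map_mul, map_add, aeval_C]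
    linear_combination -(aeval a p + aeval a q) * half_two_alg h2 A)
  rw [map_mul, map_add, hp.2 B x (hx.mono hsub), hq.2 B x (hx.mono hsub), aeval_C]
  linear_combination algebraMap k B (2 : k)⁻¹ * h3 +
    x (aeval a (C (2 : k)⁻¹ * (p + q))) * half_two_alg h2 B

lemma step_double (hS : Full Cst a S) {p : MvPolynomial (Fin m) k} (hp : Real Cst a S p) :
    ∃ S', S ⊆ S' ∧ Full Cst a S' ∧ Real Cst a S' (2 * p) := by
  classical
  apply step hS
  intro B _ _ x hx
  have hsub : S ⊆ insert (aeval a (2 * p)) S := Finset.subset_insert _ _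
  have h3 := mid_gate h2 hx (hsub hS.zero) (Finset.mem_insert_self _ _) (hsub hp.1) (by
    rw [map_mul, map_ofNat, zero_add])
  rw [hx.zero, zero_add] at h3
  rw [h3, map_mul, map_ofNat, hp.2 B x (hx.mono hsub)]

lemma step_add (hS : Full Cst a S) {p q : MvPolynomial (Fin m) k} (hp : Real Cst a S p)
    (hq : Real Cst a S q) : ∃ S', S ⊆ S' ∧ Full Cst a S' ∧ Real Cst a S' (p + q) := by
  obtain ⟨S1, h1, hS1, hr⟩ := step_mid h2 hS hp hq
  obtain ⟨S2, h2', hS2, hr2⟩ := step_double h2 hS1 hr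
  refine ⟨S2, h1.trans h2', hS2, ?_⟩
  have h3 : 2 * (C (2 : k)⁻¹ * (p + q)) = p + q := by
    linear_combination (p + q) * half_two (m := m) h2
  rwa [h3] at hr2

lemma step_neg (hS : Full Cst a S) {p : MvPolynomial (Fin m) k} (hp : Real Cst a S p) :
    ∃ S', S ⊆ S' ∧ Full Cst a S' ∧ Real Cst a S' (-p) := by
  classical
  apply step hS
  intro B _ _ x hx
  have hsub : S ⊆ insert (aeval a (-p)) S := Finset.subset_insert _ _
  have h3 := neg_gate h2 hx (hsub hS.zero) (hsub hp.1) (Finset.mem_insert_self _ _) (by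
    rw [map_neg, add_neg_cancel])
  rw [h3, map_neg, hp.2 B x (hx.mono hsub)]

lemma step_sq (hS : Full Cst a S) {p : MvPolynomial (Fin m) k} (hp : Real Cst a S p) :
    ∃ S', S ⊆ S' ∧ Full Cst a S' ∧ Real Cst a S' (p ^ 2) := by
  classical
  obtain ⟨S1, h1, hS1, hr⟩ := step_neg h2 hS hp
  have hp1 := hp.mono h1
  obtain ⟨S2, h3, hS2, hr2⟩ := step hS1 (p := p ^ 2) (by
    intro B _ _ x hx
    have hsub : S1 ⊆ insert (aeval a (p ^ 2)) S1 := Finset.subset_insert _ _
    have h3 := sq_gate h2 hx (hsub hS1.zero) (hsub hS1.one) (hsub hp1.1)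
      (Finset.mem_insert_self _ _) (hsub hr.1) (by rw [map_neg, add_neg_cancel]) (map_pow _ _ _)
    rw [h3, map_pow, hp1.2 B x (hx.mono hsub)])
  exact ⟨S2, h1.trans h3, hS2, hr2⟩

lemma step_mul (hS : Full Cst a S) {p q : MvPolynomial (Fin m) k} (hp : Real Cst a S p)
    (hq : Real Cst a S q) : ∃ S', S ⊆ S' ∧ Full Cst a S' ∧ Real Cst a S' (p * q) := by
  obtain ⟨S1, i1, hS1, r1⟩ := step_mid h2 hS hp hq
  obtain ⟨S2, i2, hS2, r2⟩ := step_neg h2 hS1 (hq.mono i1)
  obtain ⟨S3, i3, hS3, r3⟩ := step_mid h2 hS2 (hp.mono (i1.trans i2)) r2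
  obtain ⟨S4, i4, hS4, r4⟩ := step_sq h2 hS3 r3
  obtain ⟨S5, i5, hS5, r5⟩ := step_neg h2 hS4 r4
  obtain ⟨S6, i6, hS6, r6⟩ := step_sq h2 hS5 (r1.mono (i2.trans (i3.trans (i4.trans i5))))
  obtain ⟨S7, i7, hS7, r7⟩ := step_add h2 hS6 r6 (r5.mono i6)
  refine ⟨S7, i1.trans (i2.trans (i3.trans (i4.trans (i5.trans (i6.trans i7))))), hS7, ?_⟩
  have h3 : (C (2 : k)⁻¹ * (p + q)) ^ 2 + -(C (2 : k)⁻¹ * (p + -q)) ^ 2 = p * q := by
    linear_combination (p * q) * (C (2 : k)⁻¹ * 2 + 1) * half_two (m := m) h2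
  rwa [h3] at r7

lemma good_add {p q : MvPolynomial (Fin m) k} (hp : Good Cst a p) (hq : Good Cst a q) :
    Good Cst a (p + q) := by
  intro S hS
  obtain ⟨S1, i1, hS1, r1⟩ := hp S hS
  obtain ⟨S2, i2, hS2, r2⟩ := hq S1 hS1
  obtain ⟨S3, i3, hS3, r3⟩ := step_add h2 hS2 (r1.mono i2) r2
  exact ⟨S3, i1.trans (i2.trans i3), hS3, r3⟩

lemma good_mul {p q : MvPolynomial (Fin m) k} (hp : Good Cst a p) (hq : Good Cst a q) :
    Good Cst a (p * q) := by
  intro S hS
  obtain ⟨S1, i1, hS1, r1⟩ := hp S hS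
  obtain ⟨S2, i2, hS2, r2⟩ := hq S1 hS1
  obtain ⟨S3, i3, hS3, r3⟩ := step_mul h2 hS2 (r1.mono i2) r2
  exact ⟨S3, i1.trans (i2.trans i3), hS3, r3⟩

omit [IsDomain A] h2 in
lemma good_zero : Good Cst a (0 : MvPolynomial (Fin m) k) := fun S hS =>
  ⟨S, le_rfl, hS, by rw [map_zero]; exact hS.zero, fun B _ _ x hx => by
    rw [map_zero, map_zero, hx.zero]⟩

omit [IsDomain A] h2 in
lemma good_one : Good Cst a (1 : MvPolynomial (Fin m) k) := fun S hS =>
  ⟨S, le_rfl, hS, by rw [map_one]; exact hS.one, fun B _ _ x hx => by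
    rw [map_one, map_one, hx.one]⟩

omit [IsDomain A] h2 in
lemma good_X (i : Fin m) : Good Cst a (X i : MvPolynomial (Fin m) k) := fun S hS =>
  ⟨S, le_rfl, hS, by rw [aeval_X]; exact hS.gen i, fun B _ _ x hx => by
    rw [aeval_X, aeval_X]⟩

omit [IsDomain A] h2 in
lemma good_C {c : k} (hc : c ∈ Cst) : Good Cst a (C c : MvPolynomial (Fin m) k) := fun S hS => by
  classical
  apply step hS
  intro B _ _ x hx
  have h3 : (aeval a (C c) : A) = algebraMap k A c := aeval_C _ _
  rw [h3] at hx ⊢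
  rw [hx.const c hc (Finset.mem_insert_self _ _), aeval_C]

/-- the polynomials that can be realized -/
def goodRing (a : Fin m → A) (Cst : Set k) : Subsemiring (MvPolynomial (Fin m) k) where
  carrier := {p | Good Cst a p}
  mul_mem' := fun hp hq => good_mul h2 hp hq
  one_mem' := good_one
  add_mem' := fun hp hq => good_add h2 hp hq
  zero_mem' := good_zero

/-- All polynomials with coefficients in `Cst ∪ {0, 1}` can be realized. -/
lemma good_all (p : MvPolynomial (Fin m) k) (hp : ∀ e, coeff e p ∈ Cst ∪ {0, 1}) :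
    Good Cst a p := by
  have hC : ∀ c ∈ Cst ∪ {0, 1}, (C c : MvPolynomial (Fin m) k) ∈ goodRing h2 a Cst := by
    rintro c (hc | hc | hc)
    · exact good_C hc
    · rw [hc, C_0]
      exact good_zero
    · rw [Set.mem_singleton_iff.mp hc, C_1]
      exact good_one
  have h3 : p ∈ goodRing h2 a Cst := by
    rw [p.as_sum]
    refine Subsemiring.sum_mem _ fun e _ => ?_
    rw [monomial_eq]
    refine Subsemiring.mul_mem _ (hC _ (hp e)) ?_
    refine Subsemiring.prod_mem _ fun i _ => ?_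
    exact Subsemiring.pow_mem _ (good_X i) _
  exact h3

/-- Finitely many polynomials at the same time, with given elements in `S`. -/
lemma good_finset (G : Finset (MvPolynomial (Fin m) k)) (hG : ∀ g ∈ G, ∀ e, coeff e g ∈ Cst ∪ {0, 1})
    (hS : Full Cst a S) : ∃ S', S ⊆ S' ∧ Full Cst a S' ∧ ∀ g ∈ G, Real Cst a S' g := by
  classical
  induction G using Finset.induction_on with
  | empty => exact ⟨S, le_rfl, hS, fun g hg => absurd hg (Finset.notMem_empty _)⟩
  | insert g G hg ih =>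
    obtain ⟨S1, i1, hS1, r1⟩ := ih fun g hg => hG g (Finset.mem_insert_of_mem hg)
    obtain ⟨S2, i2, hS2, r2⟩ := good_all h2 g (hG g (Finset.mem_insert_self _ _)) S1 hS1
    refine ⟨S2, i1.trans i2, hS2, ?_⟩
    intro g' hg'
    rcases Finset.mem_insert.mp hg' with rfl | hg'
    · exact r2
    · exact (r1 g' hg').mono i2

end gates

/-- the set of `0`, `1` and the generators -/
lemma full_start (Cst : Set k) (a : Fin m → A) : ∃ S, Full Cst a S := by
  classical
  refine ⟨insert 0 (insert 1 (Finset.univ.image a)), ?_, ?_, ?_, ?_⟩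
  · exact Finset.mem_insert_self _ _
  · exact Finset.mem_insert_of_mem (Finset.mem_insert_self _ _)
  · exact fun i => Finset.mem_insert_of_mem (Finset.mem_insert_of_mem
      (Finset.mem_image_of_mem a (Finset.mem_univ i)))
  · intro s hs
    have hs' := hs
    rcases Finset.mem_insert.mp hs with rfl | hs
    · exact ⟨0, map_zero _, by rw [map_zero]; exact hs', fun B _ _ x hx => by
        rw [map_zero, map_zero, hx.zero]⟩
    rcases Finset.mem_insert.mp hs with rfl | hs
    · exact ⟨1, map_one _, by rw [map_one]; exact hs', fun B _ _ x hx => by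
        rw [map_one, map_one, hx.one]⟩
    obtain ⟨i, -, rfl⟩ := Finset.mem_image.mp hs
    exact ⟨X i, aeval_X _ _, by rw [aeval_X]; exact hs', fun B _ _ x hx => by
      rw [aeval_X, aeval_X]⟩

end Pool.Agent.H502.HQ
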