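import Pool.Agent.H502.HQ.Gate

/-!
# Every affine variety has an open subset which is a space of harmonic configurations
-/

set_option autoImplicit false

open MvPolynomial Pool.Agent.Z125.UN

namespace Pool.Agent.H502.HQ

section ev

variable {k : Type} [Field k] {B : Type} [CommRing B] [Algebra k B] {n : ℕ} (v : Fin n → B)

/-- coordinates of the points -/
def ptv : Fin 3 ⊕ Fin n → B × B := Sum.elim ![(1, 0), (0, 1), (1, 1)] fun i => (v i, 1)

/-- brackets -/
def brv (i j : Fin 3 ⊕ Fin n) : B := (ptv v i).1 * (ptv v j).2 - (ptv v j).1 * (ptv v i).2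

lemma aeval_pt (i : Fin 3 ⊕ Fin n) : (aeval v (pt k i).1 : B) = (ptv v i).1 ∧
    (aeval v (pt k i).2 : B) = (ptv v i).2 := by
  rcases i with i | i
  · fin_cases i
    · exact ⟨map_one _, map_zero _⟩
    · exact ⟨map_zero _, map_one _⟩
    · exact ⟨map_one _, map_one _⟩
  · exact ⟨aeval_X _ _, map_one _⟩

lemma aeval_br (i j : Fin 3 ⊕ Fin n) : (aeval v (br k i j) : B) = brv v i j := by
  rw [br, map_sub, map_mul, map_mul, (aeval_pt v i).1, (aeval_pt v i).2, (aeval_pt v j).1,
    (aeval_pt v j).2]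
  rfl

lemma aeval_hq (h : Fin 4 → Fin 3 ⊕ Fin n) : (aeval v (hq k h) : B) =
    brv v (h 0) (h 2) * brv v (h 1) (h 3) + brv v (h 0) (h 3) * brv v (h 1) (h 2) := by
  rw [hq, map_add, map_mul, map_mul, aeval_br, aeval_br, aeval_br, aeval_br]

lemma aeval_disc : (aeval v (disc k n) : B) =
    ∏ i : Fin 3 ⊕ Fin n, ∏ j : Fin 3 ⊕ Fin n, if i = j then 1 else brv v i j := by
  rw [disc, map_prod]
  refine Finset.prod_congr rfl fun i _ => ?_
  rw [map_prod]
  refine Finset.prod_congr rfl fun j _ => ?_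
  by_cases h : i = j
  · rw [if_pos h, if_pos h, map_one]
  · rw [if_neg h, if_neg h, aeval_br]

lemma brv_inf_left {j : Fin 3 ⊕ Fin n} (hj : (ptv v j).2 = 1) : brv v (Sum.inl 0) j = 1 := by
  have h1 : ptv v (Sum.inl 0) = (1, 0) := rfl
  rw [brv, h1, hj]
  ring

lemma brv_aff {i j : Fin 3 ⊕ Fin n} (hi : (ptv v i).2 = 1) (hj : (ptv v j).2 = 1) :
    brv v i j = (ptv v i).1 - (ptv v j).1 := by
  rw [brv, hi, hj]
  ring

lemma ptv_ne {i : Fin 3 ⊕ Fin n} (h : i ≠ Sum.inl 0) : (ptv v i).2 = 1 := by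
  rcases i with i | i
  · fin_cases i
    · exact absurd rfl h
    · rfl
    · rfl
  · rfl

end ev

section lab

variable {A : Type} [CommRing A] (S : Finset A)

open Classical in
/-- the elements of `S` different from `0` and `1` -/
noncomputable def tt : Finset A := (S.erase 0).erase 1

open Classical in
/-- the label of an element of `S` -/
noncomputable def lab (s : A) : Fin 3 ⊕ Fin (tt S).card :=
  if s = 0 then Sum.inl 1 else if s = 1 then Sum.inl 2 else
    if h : s ∈ tt S then Sum.inr ((tt S).equivFin ⟨s, h⟩) else Sum.inl 0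

/-- the points -/
noncomputable def vv0 (i : Fin (tt S).card) : A := ((tt S).equivFin.symm i).1

variable {S}

lemma mem_tt {s : A} : s ∈ tt S ↔ s ∈ S ∧ s ≠ 0 ∧ s ≠ 1 := by
  classical
  rw [tt, Finset.mem_erase, Finset.mem_erase]
  tauto

lemma lab_zero : lab S (0 : A) = Sum.inl 1 := if_pos rfl

lemma lab_one [Nontrivial A] : lab S (1 : A) = Sum.inl 2 := by
  rw [lab, if_neg one_ne_zero, if_pos rfl]

lemma lab_mem {s : A} (h : s ∈ tt S) : lab S s = Sum.inr ((tt S).equivFin ⟨s, h⟩) := by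
  rw [lab, if_neg (mem_tt.mp h).2.1, if_neg (mem_tt.mp h).2.2, dif_pos h]

lemma lab_vv0 (i : Fin (tt S).card) : lab S (vv0 S i) = Sum.inr i := by
  have h := ((tt S).equivFin.symm i).2
  rw [vv0, lab_mem h]
  simp

lemma vv0_mem (i : Fin (tt S).card) : vv0 S i ∈ S := (mem_tt.mp ((tt S).equivFin.symm i).2).1

lemma lab_ne {s : A} (h : s ∈ S) : lab S s ≠ Sum.inl 0 := by
  by_cases h0 : s = 0
  · rw [h0, lab_zero]
    simp
  by_cases h1 : s = 1
  · rw [lab, if_neg h0, if_pos h1]
    simp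
  · rw [lab_mem (mem_tt.mpr ⟨h, h0, h1⟩)]
    simp

lemma ptv_lab {s : A} (h : s ∈ S) : ptv (vv0 S) (lab S s) = (s, 1) := by
  by_cases h0 : s = 0
  · rw [h0, lab_zero]
    rfl
  by_cases h1 : s = 1
  · rw [lab, if_neg h0, if_pos h1, h1]
    rfl
  · rw [lab_mem (mem_tt.mpr ⟨h, h0, h1⟩)]
    change ((vv0 S _, 1) : A × A) = (s, 1)
    rw [vv0]
    simp

lemma lab_inj {s t : A} (hs : s ∈ S) (ht : t ∈ S) (h : lab S s = lab S t) : s = t := by
  have h1 := ptv_lab hs
  rw [h, ptv_lab ht] at h1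
  exact (congrArg Prod.fst h1).symm

/-- the value of `lab` on points -/
lemma eq_of_ptv (i : Fin 3 ⊕ Fin (tt S).card) (h0 : (0 : A) ∈ S) (h1 : (1 : A) ∈ S) [Nontrivial A]
    (hi : i ≠ Sum.inl 0) : ∃ s ∈ S, i = lab S s := by
  rcases i with i | i
  · fin_cases i
    · exact absurd rfl hi
    · exact ⟨0, h0, lab_zero.symm⟩
    · exact ⟨1, h1, lab_one.symm⟩
  · exact ⟨vv0 S i, vv0_mem i, (lab_vv0 i).symm⟩

/-- The points are different. -/
lemma brv_ne [IsDomain A] (h0 : (0 : A) ∈ S) (h1 : (1 : A) ∈ S) {i j : Fin 3 ⊕ Fin (tt S).card}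
    (hij : i ≠ j) : brv (vv0 S) i j ≠ 0 := by
  by_cases hi : i = Sum.inl 0
  · subst hi
    rw [brv_inf_left _ (ptv_ne _ hij.symm)]
    exact one_ne_zero
  by_cases hj : j = Sum.inl 0
  · subst hj
    have h2 : brv (vv0 S) i (Sum.inl 0) = - brv (vv0 S) (Sum.inl 0) i := by
      rw [brv, brv]
      ring
    rw [h2, brv_inf_left _ (ptv_ne _ hij)]
    exact neg_ne_zero.mpr one_ne_zero
  obtain ⟨s, hs, rfl⟩ := eq_of_ptv i h0 h1 hi
  obtain ⟨t, ht, rfl⟩ := eq_of_ptv j h0 h1 hj
  have h2 := ptv_lab hs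
  have h3 := ptv_lab ht
  rw [brv, h2, h3]
  intro h4
  apply hij
  rw [show s = t by linear_combination h4]

lemma disc_ne {k : Type} [Field k] [Algebra k A] [IsDomain A] (h0 : (0 : A) ∈ S)
    (h1 : (1 : A) ∈ S) : (aeval (vv0 S) (disc k (tt S).card) : A) ≠ 0 := by
  rw [aeval_disc]
  refine Finset.prod_ne_zero_iff.mpr fun i _ => Finset.prod_ne_zero_iff.mpr fun j _ => ?_
  by_cases h : i = j
  · rw [if_pos h]
    exact one_ne_zero
  · rw [if_neg h]
    exact brv_ne h0 h1 h

end lab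

section core

variable {k : Type} [Field k] {A : Type} [CommRing A] [IsDomain A] [Algebra k A] {Cst : Set k}
  {S : Finset A} {m : ℕ} {a : Fin m → A}

/-- the values of the universal representation -/
noncomputable def xx (S : Finset A) {B : Type} [CommRing B] [Algebra k B]
    (w : Fin (tt S).card → B) (s : A) : B := (ptv w (lab S s)).1

/-- The universal property. -/
theorem core_iso (hsurj : Function.Surjective (aeval a : MvPolynomial (Fin m) k →ₐ[k] A))
    (G0 : Finset (MvPolynomial (Fin m) k))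
    (hker : RingHom.ker (aeval a : MvPolynomial (Fin m) k →ₐ[k] A) =
      Ideal.span (G0 : Set (MvPolynomial (Fin m) k)))
    (hS : Full Cst a S) (hreal : ∀ g ∈ G0, Real Cst a S g)
    {κ : Type} (G : κ → MvPolynomial (Fin (tt S).card) k)
    (hG : ∀ i, (aeval (vv0 S) (G i) : A) = 0)
    (hx : HRep Cst S (xx (k := k) S (pv G (disc k (tt S).card)))) :
    Nonempty (Localization.Away (aeval (vv0 S) (disc k (tt S).card) : A) ≃ₐ[k]
      Pc G (disc k (tt S).card)) := by
  let w := disc k (tt S).card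
  let f : A := aeval (vv0 S) w
  let x : A → Pc G w := xx (k := k) S (pv G w)
  -- the homomorphism from `A`
  have hg0 : ∀ p : MvPolynomial (Fin m) k, p ∈ RingHom.ker (aeval a : _ →ₐ[k] A) →
      aeval (fun i => x (a i)) p = 0 := by
    have h1 : RingHom.ker (aeval a : MvPolynomial (Fin m) k →ₐ[k] A) ≤
        RingHom.ker (aeval (fun i => x (a i)) : MvPolynomial (Fin m) k →ₐ[k] Pc G w) := by
      rw [hker, Ideal.span_le]
      intro g hg
      have hg' : (aeval a g : A) = 0 := by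
        have h2 : g ∈ RingHom.ker (aeval a : MvPolynomial (Fin m) k →ₐ[k] A) := by
          rw [hker]
          exact Ideal.subset_span hg
        exact h2
      have h3 := (hreal g hg).2 (Pc G w) x hx
      have h4 : x 0 = 0 := hx.zero
      rw [hg', h4] at h3
      exact h3
    exact fun p hp => h1 hp
  let ψ : A →ₐ[k] Pc G w :=
    (Ideal.Quotient.liftₐ (RingHom.ker (aeval a : MvPolynomial (Fin m) k →ₐ[k] A))
      (aeval fun i => x (a i)) hg0).comp
      (Ideal.quotientKerAlgEquivOfSurjective hsurj).symm.toAlgHom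
  have hψ : ∀ p : MvPolynomial (Fin m) k, ψ (aeval a p) = aeval (fun i => x (a i)) p := by
    intro p
    have h1 : (Ideal.quotientKerAlgEquivOfSurjective hsurj).symm (aeval a p) =
        Ideal.Quotient.mk _ p := by
      rw [AlgEquiv.symm_apply_eq]
      rfl
    change (Ideal.Quotient.liftₐ _ _ hg0) ((Ideal.quotientKerAlgEquivOfSurjective hsurj).symm
      (aeval a p)) = _
    rw [h1]
    rfl
  have hψS : ∀ s ∈ S, ψ s = x s := by
    intro s hs
    obtain ⟨p, rfl, hp⟩ := hS.all s hs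
    rw [hψ]
    exact hp.2 _ x hx
  have hψv : ∀ i, ψ (vv0 S i) = pv G w i := by
    intro i
    rw [hψS _ (vv0_mem i)]
    change (ptv (pv G w) (lab S (vv0 S i))).1 = _
    rw [lab_vv0]
    rfl
  have hψf : ψ f = pc G w w := by
    have h1 : (fun i => ψ (vv0 S i)) = pv G w := funext hψv
    have h2 : ψ f = aeval (fun i => ψ (vv0 S i)) w := by
      change ψ (aeval (vv0 S) w) = _
      rw [← AlgHom.comp_apply, MvPolynomial.comp_aeval]
    rw [h2, h1, pc_aeval]
  let L := Localization.Away f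
  let Ψ : L →ₐ[k] Pc G w := IsLocalization.liftAlgHom (M := Submonoid.powers f) (f := ψ) (by
    rintro ⟨_, j, rfl⟩
    change IsUnit (ψ (f ^ j))
    rw [map_pow, hψf]
    exact (pc_unit G w).pow j)
  have hΨ : ∀ b : A, Ψ (algebraMap A L b) = ψ b := by
    intro b
    change IsLocalization.liftAlgHom _ _ = _
    rw [IsLocalization.liftAlgHom_apply, IsLocalization.lift_eq]
    rfl
  -- the homomorphism to the localization
  let ι : A →ₐ[k] L := IsScalarTower.toAlgHom k A L
  have hι : ∀ p : MvPolynomial (Fin (tt S).card) k,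
      aeval (fun i => ι (vv0 S i)) p = ι (aeval (vv0 S) p) := by
    intro p
    rw [← AlgHom.comp_apply ι, MvPolynomial.comp_aeval]
  let Φ : Pc G w →ₐ[k] L := pcLift G w (fun i => ι (vv0 S i))
    (fun i => by rw [hι, hG, map_zero])
    (by
      rw [hι]
      exact IsLocalization.Away.algebraMap_isUnit f)
  have hΦ : ∀ i, Φ (pv G w i) = ι (vv0 S i) := fun i => pcLift_pv _ _ _ _ _ _
  have hΦx : ∀ s ∈ S, Φ (x s) = ι s := by
    intro s hs
    change Φ (ptv (pv G w) (lab S s)).1 = ι s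
    by_cases h0 : s = 0
    · subst h0
      rw [lab_zero]
      change Φ 0 = ι 0
      rw [map_zero, map_zero]
    by_cases h1 : s = 1
    · subst h1
      rw [lab_one]
      change Φ 1 = ι 1
      rw [map_one, map_one]
    · have h2 : s ∈ tt S := mem_tt.mpr ⟨hs, h0, h1⟩
      rw [lab_mem h2]
      change Φ (pv G w _) = ι s
      rw [hΦ, vv0]
      simp
  refine ⟨AlgEquiv.ofAlgHom Ψ Φ ?_ ?_⟩
  · apply pc_ext
    intro i
    rw [AlgHom.comp_apply, hΦ]
    change Ψ (algebraMap A L (vv0 S i)) = _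
    rw [hΨ, hψv]
    rfl
  · apply IsLocalization.algHom_ext (Submonoid.powers f)
    apply AlgHom.ext
    intro b
    obtain ⟨p, rfl⟩ := hsurj b
    change Φ (Ψ (algebraMap A L (aeval a p))) = algebraMap A L (aeval a p)
    rw [hΨ, hψ]
    have h1 : (fun i => Φ (x (a i))) = fun i => ι (a i) := by
      funext i
      exact hΦx _ (hS.gen i)
    have h2 : Φ (aeval (fun i => x (a i)) p) = aeval (fun i => Φ (x (a i))) p := by
      rw [← AlgHom.comp_apply, MvPolynomial.comp_aeval]
    rw [h2, h1]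
    change _ = ι (aeval a p)
    rw [← AlgHom.comp_apply ι, MvPolynomial.comp_aeval]

end core

end Pool.Agent.H502.HQ
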