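import Pool.Agent.H502.HQ.Defs
import Pool.Graph.R_seed8.Z125.UN.Lin

/-!
# Complements of arrangements of hyperplanes in affine spaces

If all the prescribed harmonic quadruples contain the point `∞`, then the space of the configurations
is the complement of an arrangement of hyperplanes in an affine space.
-/

set_option autoImplicit false

open CategoryTheory AlgebraicGeometry MvPolynomial Pool.Agent.Y116.UV Pool.Agent.Z125.UN

namespace Pool.Agent.H502.HQ

variable {k : Type} [Field k]

section lf

variable {σ : Type} [Fintype σ]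

/-- affine linear forms -/
noncomputable def lf (c : σ → k) (d : k) : MvPolynomial σ k := C d + ∑ s, C (c s) * X s

/-- affine linear forms -/
def IsLf (p : MvPolynomial σ k) : Prop := ∃ c d, p = lf c d

lemma isLf_C (d : k) : IsLf (C d : MvPolynomial σ k) := ⟨0, d, by simp [lf]⟩

lemma isLf_X (i : σ) : IsLf (X i : MvPolynomial σ k) := by
  classical
  refine ⟨Pi.single i 1, 0, ?_⟩
  rw [lf, Finset.sum_eq_single i]
  · simp
  · intro b _ hb
    rw [Pi.single_eq_of_ne hb]
    simp
  · intro h
    exact absurd (Finset.mem_univ i) h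

lemma IsLf.add {p q : MvPolynomial σ k} (hp : IsLf p) (hq : IsLf q) : IsLf (p + q) := by
  obtain ⟨c, d, rfl⟩ := hp
  obtain ⟨c', d', rfl⟩ := hq
  refine ⟨c + c', d + d', ?_⟩
  simp only [lf, Pi.add_apply, map_add, add_mul, Finset.sum_add_distrib]
  ring

lemma IsLf.smul {p : MvPolynomial σ k} (hp : IsLf p) (r : k) : IsLf (C r * p) := by
  obtain ⟨c, d, rfl⟩ := hp
  refine ⟨fun s => r * c s, r * d, ?_⟩
  simp only [lf, C_mul, mul_add, Finset.mul_sum, mul_assoc]

lemma IsLf.neg {p : MvPolynomial σ k} (hp : IsLf p) : IsLf (-p) := by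
  have h := hp.smul (-1)
  have h1 : C (-1 : k) * p = -p := by simp
  rwa [h1] at h

lemma IsLf.sub {p q : MvPolynomial σ k} (hp : IsLf p) (hq : IsLf q) : IsLf (p - q) := by
  rw [sub_eq_add_neg]
  exact hp.add hq.neg

end lf

section br

variable {n : ℕ}

lemma pt_cases (i : Fin 3 ⊕ Fin n) : (pt k i = (1, 0)) ∨ ((pt k i).2 = 1 ∧ IsLf (pt k i).1) := by
  rcases i with i | i
  · fin_cases i
    · exact Or.inl rfl
    · refine Or.inr ⟨rfl, ?_⟩
      have h := isLf_C (k := k) (σ := Fin n) 0
      rw [C_0] at h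
      exact h
    · refine Or.inr ⟨rfl, ?_⟩
      have h := isLf_C (k := k) (σ := Fin n) 1
      rw [C_1] at h
      exact h
  · exact Or.inr ⟨rfl, isLf_X i⟩

lemma isLf_zero : IsLf (0 : MvPolynomial (Fin n) k) := by
  have h := isLf_C (k := k) (σ := Fin n) 0
  rwa [C_0] at h

lemma isLf_one : IsLf (1 : MvPolynomial (Fin n) k) := by
  have h := isLf_C (k := k) (σ := Fin n) 1
  rwa [C_1] at h

lemma isLf_br (i j : Fin 3 ⊕ Fin n) : IsLf (br k i j) := by
  rcases pt_cases (k := k) i with hi | ⟨hi, hi'⟩ <;> rcases pt_cases (k := k) j with hj | ⟨hj, hj'⟩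
  · rw [br, hi, hj, mul_zero, sub_self]
    exact isLf_zero
  · rw [br, hi, hj, mul_one, mul_zero, sub_zero]
    exact isLf_one
  · rw [br, hi, hj, mul_zero, one_mul, zero_sub]
    exact isLf_one.neg
  · rw [br, hi, hj, mul_one, mul_one]
    exact hi'.sub hj'

lemma br_left (j : Fin 3 ⊕ Fin n) : ∃ r : k, br k (Sum.inl 0) j = C r := by
  have h0 : pt k (Sum.inl 0 : Fin 3 ⊕ Fin n) = (1, 0) := rfl
  rcases pt_cases (k := k) j with hj | ⟨hj, -⟩
  · exact ⟨0, by rw [br, h0, hj, C_0]; ring⟩
  · exact ⟨1, by rw [br, h0, hj, C_1]; ring⟩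

lemma br_swap (i j : Fin 3 ⊕ Fin n) : br k i j = - br k j i := by
  rw [br, br]
  ring

lemma br_right (j : Fin 3 ⊕ Fin n) : ∃ r : k, br k j (Sum.inl 0) = C r := by
  obtain ⟨r, hr⟩ := br_left (k := k) j
  exact ⟨-r, by rw [br_swap, hr, C_neg]⟩

lemma isLf_mul_left {i j a b : Fin 3 ⊕ Fin n} (h : i = Sum.inl 0 ∨ j = Sum.inl 0) :
    IsLf (br k i j * br k a b) := by
  have h1 : ∃ r : k, br k i j = C r := by
    rcases h with rfl | rfl
    · exact br_left _
    · exact br_right _
  obtain ⟨r, hr⟩ := h1
  rw [hr]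
  exact (isLf_br _ _).smul r

lemma isLf_mul_right {i j a b : Fin 3 ⊕ Fin n} (h : i = Sum.inl 0 ∨ j = Sum.inl 0) :
    IsLf (br k a b * br k i j) := by
  rw [mul_comm]
  exact isLf_mul_left h

lemma isLf_hq {h : Fin 4 → Fin 3 ⊕ Fin n} (hh : ∃ i, h i = Sum.inl 0) : IsLf (hq k h) := by
  obtain ⟨i, hi⟩ := hh
  rw [hq]
  fin_cases i
  · exact (isLf_mul_left (Or.inl hi)).add (isLf_mul_left (Or.inl hi))
  · exact (isLf_mul_right (Or.inl hi)).add (isLf_mul_right (Or.inl hi))
  · exact (isLf_mul_left (Or.inr hi)).add (isLf_mul_right (Or.inr hi))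
  · exact (isLf_mul_right (Or.inr hi)).add (isLf_mul_left (Or.inr hi))

lemma disc_mem : disc k n ∈ Submonoid.closure {p : MvPolynomial (Fin n) k | IsLf p} := by
  refine Submonoid.prod_mem _ fun i _ => Submonoid.prod_mem _ fun j _ => ?_
  apply Submonoid.subset_closure
  by_cases h : i = j
  · rw [if_pos h]
    exact isLf_one
  · rw [if_neg h]
    exact isLf_br _ _

end br

section elim

variable {σ : Type} [Fintype σ] [DecidableEq σ] (i : σ) (c : σ → k) (d : k)

/-- the substitution -/
noncomputable def sb (s : σ) : MvPolynomial {s : σ // s ≠ i} k :=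
  if h : s = i then -C (c i)⁻¹ * lf (fun s : {s : σ // s ≠ i} => c s.1) d else X ⟨s, h⟩

lemma sb_self : sb i c d i = -C (c i)⁻¹ * lf (fun s : {s : σ // s ≠ i} => c s.1) d := dif_pos rfl

lemma sb_ne (s : {s : σ // s ≠ i}) : sb i c d s.1 = X s := dif_neg s.2

lemma lf_split (c' : σ → k) (d' : k) :
    lf c' d' = C (c' i) * X i + rename Subtype.val (lf (fun s : {s : σ // s ≠ i} => c' s.1) d') := by
  rw [lf, lf, Fintype.sum_eq_add_sum_subtype_ne _ i, map_add, map_sum, rename_C]
  simp only [map_mul, rename_C, rename_X]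
  ring

lemma aeval_sb_rename (p : MvPolynomial {s : σ // s ≠ i} k) :
    aeval (sb i c d) (rename Subtype.val p) = p := by
  rw [aeval_rename]
  have h : (sb i c d ∘ Subtype.val) = (X : {s : σ // s ≠ i} → _) := funext fun s => sb_ne i c d s
  rw [h, aeval_X_left_apply]

lemma aeval_sb (c' : σ → k) (d' : k) : aeval (sb i c d) (lf c' d') =
    lf (fun s : {s : σ // s ≠ i} => c' s.1 - c' i * (c i)⁻¹ * c s.1) (d' - c' i * (c i)⁻¹ * d) := by
  rw [lf_split i c' d', map_add, map_mul, aeval_X, aeval_sb_rename, algHom_C, algebraMap_eq, sb_self]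
  simp only [lf, C_sub, C_mul, sub_mul, Finset.sum_sub_distrib, mul_add, Finset.mul_sum]
  have h : ∑ x : {s : σ // s ≠ i}, C (c' i) * (-C (c i)⁻¹ * (C (c x.1) * X x)) =
      -∑ x : {s : σ // s ≠ i}, C (c' i) * C (c i)⁻¹ * C (c x.1) * X x := by
    rw [← Finset.sum_neg_distrib]
    exact Finset.sum_congr rfl fun x _ => by ring
  rw [h]
  ring

variable {i c}

/-- elimination of a variable -/
noncomputable def elimE (hc : c i ≠ 0) {κ : Type} (G : Option κ → MvPolynomial σ k)
    (hG : G none = lf c d) (w : MvPolynomial σ k) :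
    Pc G w ≃ₐ[k] Pc (fun j : κ => aeval (sb i c d) (G (some j))) (aeval (sb i c d) w) := by
  let G' : κ → MvPolynomial {s : σ // s ≠ i} k := fun j => aeval (sb i c d) (G (some j))
  let w' := aeval (sb i c d) w
  have hcc : (C (c i) : MvPolynomial {s : σ // s ≠ i} k) * C (c i)⁻¹ = 1 := by
    rw [← C_mul, mul_inv_cancel₀ hc, C_1]
  have ha : ∀ p : MvPolynomial σ k, aeval (fun s => pc G' w' (sb i c d s)) p =
      pc G' w' (aeval (sb i c d) p) := by
    intro p
    rw [← AlgHom.comp_apply, MvPolynomial.comp_aeval]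
  have hb0 : ∀ s, aeval (fun s : {s : σ // s ≠ i} => pv G w s.1) (sb i c d s) = pv G w s := by
    intro s
    by_cases h : s = i
    · subst h
      have h1 : aeval (fun s : {s' : σ // s' ≠ s} => pv G w s.1)
          (lf (fun s : {s' : σ // s' ≠ s} => c s.1) d) =
          pc G w (rename Subtype.val (lf (fun s : {s' : σ // s' ≠ s} => c s.1) d)) := by
        rw [← pc_aeval, aeval_rename]
        rfl
      have h2 := pc_rel G w none
      rw [hG, lf_split s c d, map_add, map_mul] at h2
      have h3 : pc G w (C (c s)) = algebraMap k _ (c s) := AlgHom.commutes _ _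
      have h4 : pc G w (X s) = pv G w s := rfl
      have h5 : algebraMap k (Pc G w) (c s)⁻¹ * algebraMap k (Pc G w) (c s) = 1 := by
        rw [← map_mul, inv_mul_cancel₀ hc, map_one]
      rw [sb_self, map_mul, map_neg, aeval_C, h1]
      rw [h3, h4] at h2
      linear_combination -algebraMap k (Pc G w) (c s)⁻¹ * h2 + pv G w s * h5
    · rw [show s = (⟨s, h⟩ : {s : σ // s ≠ i}).1 from rfl, sb_ne, aeval_X]
  have hb : ∀ p : MvPolynomial σ k, aeval (fun s : {s : σ // s ≠ i} => pv G w s.1)
      (aeval (sb i c d) p) = pc G w p := by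
    intro p
    rw [← AlgHom.comp_apply, MvPolynomial.comp_aeval]
    have h : (fun s => aeval (fun s : {s : σ // s ≠ i} => pv G w s.1) (sb i c d s)) = pv G w :=
      funext hb0
    rw [h, pc_aeval]
  refine pcEquiv (fun s => pc G' w' (sb i c d s)) ?_ ?_ (fun s => pv G w s.1) ?_ ?_ ?_ ?_
  · rintro (_ | j)
    · rw [ha, hG, aeval_sb]
      have h : lf (fun s : {s : σ // s ≠ i} => c s.1 - c i * (c i)⁻¹ * c s.1)
          (d - c i * (c i)⁻¹ * d) = 0 := by
        simp [lf, mul_inv_cancel₀ hc]
      rw [h, map_zero]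
    · rw [ha]
      exact pc_rel G' w' j
  · rw [ha]
    exact pc_unit G' w'
  · intro j
    rw [hb]
    exact pc_rel G w (some j)
  · rw [hb]
    exact pc_unit G w
  · intro s
    rw [pcLift_pc]
    exact hb0 s
  · intro s
    rw [pcLift_pv]
    change pc G' w' (sb i c d s.1) = _
    rw [sb_ne]
    rfl

end elim

section claim

variable {P : Sch k → Prop} (hP : Bnd True P)

include hP

lemma elim_step {σ : Type} [Fintype σ] [DecidableEq σ] {α : Type} (i : σ) (c : Option α → σ → k)
    (d : Option α → k) (hi : c none i ≠ 0)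
    (ih : ∀ [Fintype {s : σ // s ≠ i}] (c : α → {s : σ // s ≠ i} → k) (d : α → k),
      P (aff k (Pc (fun j => lf (c j) (d j)) 1))) :
    P (aff k (Pc (fun j => lf (c j) (d j)) 1)) := by
  have h1 := ih (fun j s => c (some j) s.1 - c (some j) i * (c none i)⁻¹ * c none s.1)
    (fun j => d (some j) - c (some j) i * (c none i)⁻¹ * d none)
  have h2 : (fun j : α => aeval (sb i (c none) (d none)) (lf (c (some j)) (d (some j)))) =
      fun j => lf (fun s : {s : σ // s ≠ i} => c (some j) s.1 - c (some j) i * (c none i)⁻¹ *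
        c none s.1) (d (some j) - c (some j) i * (c none i)⁻¹ * d none) :=
    by
      funext j
      have h3 := aeval_sb i (c none) (d none) (c (some j)) (d (some j))
      rw [h3]
  have e := elimE (i := i) (c := c none) (d none) hi (fun j => lf (c j) (d j)) rfl 1
  rw [map_one, h2] at e
  exact iso_alg hP.toUni e.symm h1

lemma claim_one (κ : Type) [Finite κ] : ∀ (σ : Type) [Fintype σ] (c : κ → σ → k) (d : κ → k),
    P (aff k (Pc (fun j => lf (c j) (d j)) 1)) := by
  classical
  refine Finite.induction_empty_option (P := fun κ : Type => ∀ (σ : Type) [Fintype σ]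
    (c : κ → σ → k) (d : κ → k), P (aff k (Pc (fun j => lf (c j) (d j)) 1))) ?_ ?_ ?_ κ
  · intro α β e h σ _ c d
    refine iso_alg hP.toUni (pcSame ?_ ?_ ?_ ?_) (h σ (fun j => c (e j)) fun j => d (e j))
    · intro j
      exact pc_rel (fun j => lf (c j) (d j)) 1 (e j)
    · rw [map_one]
      exact isUnit_one
    · intro j
      have h1 := pc_rel (fun j => lf (c (e j)) (d (e j))) 1 (e.symm j)
      simpa using h1
    · rw [map_one]
      exact isUnit_one
  · intro σ _ c d
    have h1 : P (aff k (MvPolynomial σ k)) :=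
      iso_alg hP.toUni (renameEquiv k (Fintype.equivFin σ).symm) (hP.space _)
    have h2 : P (aff k (MvPolynomial σ k ⧸ Ideal.span (Set.range fun j : PEmpty =>
        lf (c j) (d j)))) := by
      have h3 : Ideal.span (Set.range fun j : PEmpty => lf (c j) (d j)) = ⊥ := by
        rw [Set.range_eq_empty, Ideal.span_empty]
      rw [h3]
      exact iso_alg hP.toUni (AlgEquiv.quotientBot k _).symm h1
    exact iso_alg hP.toUni (oneE _) h2
  · intro α _ ih σ _ c d
    by_cases hc : c none = 0
    · by_cases hd : d none = 0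
      · refine iso_alg hP.toUni (pcSame ?_ ?_ ?_ ?_) (ih σ (fun j => c (some j))
          fun j => d (some j))
        · intro j
          exact pc_rel (fun j => lf (c j) (d j)) 1 (some j)
        · rw [map_one]
          exact isUnit_one
        · rintro (_ | j)
          · have h1 : lf (c none) (d none) = 0 := by simp [lf, hc, hd]
            rw [h1, map_zero]
          · exact pc_rel (fun j => lf (c (some j)) (d (some j))) 1 j
        · rw [map_one]
          exact isUnit_one
      · refine p_empty hP _ ?_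
        have h1 := pc_rel (fun j => lf (c j) (d j)) 1 (none : Option α)
        have h2 : lf (c none) (d none) = C (d none) := by simp [lf, hc]
        rw [h2] at h1
        have h3 : pc (fun j => lf (c j) (d j)) 1 (C (d none)) = algebraMap k _ (d none) :=
          AlgHom.commutes _ _
        rw [h3] at h1
        have h4 := (isUnit_iff_ne_zero.mpr hd).map
          (algebraMap k (Pc (fun j : Option α => lf (c j) (d j)) 1))
        rw [h1] at h4
        exact subsingleton_of_zero_eq_one (isUnit_zero_iff.mp h4)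
    · obtain ⟨i, hi⟩ : ∃ i, c none i ≠ 0 := by
        by_contra h
        push Not at h
        exact hc (funext h)
      exact elim_step hP i c d hi (ih {s : σ // s ≠ i})

lemma claim_two {σ : Type} [Fintype σ] {w : MvPolynomial σ k}
    (hw : w ∈ Submonoid.closure {p : MvPolynomial σ k | IsLf p}) :
    ∀ (κ : Type) [Finite κ] (c : κ → σ → k) (d : κ → k),
      P (aff k (Pc (fun j => lf (c j) (d j)) w)) := by
  induction hw using Submonoid.closure_induction_left with
  | one => exact fun κ _ c d => claim_one hP κ σ c d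
  | mul_left e he w _ ih =>
    intro κ _ c d
    obtain ⟨c0, d0, rfl⟩ := he
    rw [mul_comm]
    refine pc_open hP (ih κ c d) ?_
    have h1 := ih (Option κ) (fun j => j.elim c0 c) fun j => j.elim d0 d
    have h2 : (fun j : Option κ => lf (j.elim c0 c) (j.elim d0 d)) =
        adj (fun j => lf (c j) (d j)) (lf c0 d0) := by
      funext j
      rcases j with _ | j <;> rfl
    rwa [h2] at h1

/-- **Quadruples with a common point.** If all quadruples of `H` contain the point `∞`, then the
space of the configurations has every property that is closed under closed-open decompositions and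
true for the affine spaces. -/
theorem harm_lin {n : ℕ} (H : Finset (Fin 4 → Fin 3 ⊕ Fin n))
    (hH : ∀ h ∈ H, ∃ i, h i = Sum.inl 0) : P (harmS k n H) := by
  have h1 : ∀ h : H, ∃ cd : (Fin n → k) × k, hq k h.1 = lf cd.1 cd.2 := fun h => by
    obtain ⟨c, d, hcd⟩ := isLf_hq (k := k) (hH h.1 h.2)
    exact ⟨(c, d), hcd⟩
  choose cd hcd using h1
  have h2 := claim_two hP (disc_mem (k := k) (n := n)) H (fun h => (cd h).1) fun h => (cd h).2
  have h3 : (fun h : H => hq k h.1) = fun h => lf (cd h).1 (cd h).2 := funext hcd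
  rw [harmS_eq, h3]
  exact h2

end claim

end Pool.Agent.H502.HQ
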