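import Pool.Agent.H502.HQ.Iso

/-!
# The spaces of harmonic configurations decide every property closed under closed-open decompositions
-/

set_option autoImplicit false

open CategoryTheory AlgebraicGeometry MvPolynomial Pool.Agent.Y116.UV Pool.Agent.Z125.UN
  Pool.Agent.Q193.LT

namespace Pool.Agent.H502.HQ

section fam

variable {k : Type} [Field k] {A : Type} [CommRing A] [IsDomain A] [Algebra k A] {Cst : Set k}
  {S : Finset A}

open Classical in
/-- the harmonic quadruples of `S` -/
noncomputable def HH (k : Type) [Field k] [Algebra k A] (S : Finset A) :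
    Finset (Fin 4 → Fin 3 ⊕ Fin (tt S).card) :=
  Finset.univ.filter fun h => (aeval (vv0 S) (hq k h) : A) = 0 ∧
    ∃ i, h i = Sum.inl 0 ∨ h i = Sum.inl 2

lemma meets_HH : Meets (HH k S) := by
  classical
  exact fun h hh => (Finset.mem_filter.mp hh).2.2

open Classical in
/-- the constants in `S` -/
noncomputable def KK (Cst : Set k) (S : Finset A) : Finset (Fin (tt S).card × k) :=
  (Finset.univ.filter fun i => ∃ c ∈ Cst, algebraMap k A c = vv0 S i).image fun i =>
    (i, if h : ∃ c ∈ Cst, algebraMap k A c = vv0 S i then h.choose else 0)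

lemma kk_mem {Cst : Set k} {c : k} (hc : c ∈ Cst) {i : Fin (tt S).card}
    (h : algebraMap k A c = vv0 S i) : (i, c) ∈ KK Cst S := by
  classical
  have h1 : ∃ c ∈ Cst, algebraMap k A c = vv0 S i := ⟨c, hc, h⟩
  refine Finset.mem_image.mpr ⟨i, Finset.mem_filter.mpr ⟨Finset.mem_univ _, h1⟩, ?_⟩
  rw [dif_pos h1]
  have h2 : h1.choose = c := (algebraMap k A).injective (h1.choose_spec.2.trans h.symm)
  rw [h2]

lemma kk_eq {Cst : Set k} {q : Fin (tt S).card × k} (hq : q ∈ KK Cst S) :
    vv0 S q.1 = algebraMap k A q.2 := by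
  classical
  obtain ⟨i, hi, rfl⟩ := Finset.mem_image.mp hq
  have h1 := (Finset.mem_filter.mp hi).2
  change vv0 S i = algebraMap k A (if h : ∃ c ∈ Cst, algebraMap k A c = vv0 S i then h.choose else 0)
  rw [dif_pos h1]
  exact h1.choose_spec.2.symm

/-- The universal configuration respects harmonic quadruples. -/
lemma hrep_univ {B : Type} [CommRing B] [Algebra k B]
    (w : Fin (tt S).card → B) (hH : ∀ h ∈ HH k S, (aeval w (hq k h) : B) = 0)
    (hK : ∀ c ∈ Cst, ∀ i, algebraMap k A c = vv0 S i → w i = algebraMap k B c) :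
    HRep Cst S (xx (k := k) S w) where
  zero := by rw [xx, lab_zero]; rfl
  one := by rw [xx, lab_one]; rfl
  const := by
    intro c hc hs
    by_cases e0 : algebraMap k A c = 0
    · have e1 : c = 0 := (map_eq_zero_iff _ (algebraMap k A).injective).mp e0
      rw [e1, map_zero, map_zero, xx, lab_zero]
      rfl
    by_cases e1 : algebraMap k A c = 1
    · have e2 : c = 1 := (algebraMap k A).injective (by rw [e1, map_one])
      rw [e2, map_one, map_one, xx, lab_one]
      rfl
    · have h2 : algebraMap k A c ∈ tt S := mem_tt.mpr ⟨hs, e0, e1⟩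
      rw [xx, lab_mem h2]
      refine hK c hc _ ?_
      rw [vv0]
      simp
  mid := by
    intro s hs t ht m hm hst hsm htm h
    let q : Fin 4 → Fin 3 ⊕ Fin (tt S).card := ![Sum.inl 0, lab S m, lab S s, lab S t]
    have hq0 : (aeval (vv0 S) (hq k q) : A) = 0 := by
      rw [aeval_hq]
      change brv (vv0 S) (Sum.inl 0) (lab S s) * brv (vv0 S) (lab S m) (lab S t) +
        brv (vv0 S) (Sum.inl 0) (lab S t) * brv (vv0 S) (lab S m) (lab S s) = 0
      rw [brv_inf_left _ (ptv_ne _ (lab_ne hs)), brv_inf_left _ (ptv_ne _ (lab_ne ht)),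
        brv_aff _ (ptv_ne _ (lab_ne hm)) (ptv_ne _ (lab_ne ht)),
        brv_aff _ (ptv_ne _ (lab_ne hm)) (ptv_ne _ (lab_ne hs)), ptv_lab hs, ptv_lab ht,
        ptv_lab hm]
      linear_combination -h
    have hq1 := hH q (by
      classical exact Finset.mem_filter.mpr ⟨Finset.mem_univ _, hq0, 0, Or.inl rfl⟩)
    rw [aeval_hq] at hq1
    change brv w (Sum.inl 0) (lab S s) * brv w (lab S m) (lab S t) +
        brv w (Sum.inl 0) (lab S t) * brv w (lab S m) (lab S s) = 0 at hq1
    rw [brv_inf_left _ (ptv_ne _ (lab_ne hs)), brv_inf_left _ (ptv_ne _ (lab_ne ht)),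
        brv_aff _ (ptv_ne _ (lab_ne hm)) (ptv_ne _ (lab_ne ht)),
        brv_aff _ (ptv_ne _ (lab_ne hm)) (ptv_ne _ (lab_ne hs))] at hq1
    change (ptv w (lab S s)).1 + (ptv w (lab S t)).1 = 2 * (ptv w (lab S m)).1
    linear_combination -hq1
  quad := by
    intro s hs u hu v hv _ _ _ _ _ _ h
    let q : Fin 4 → Fin 3 ⊕ Fin (tt S).card := ![lab S s, Sum.inl 2, lab S u, lab S v]
    have e1 : (Sum.inl 2 : Fin 3 ⊕ Fin (tt S).card) ≠ Sum.inl 0 := by simp
    have e2 : (ptv (vv0 S) (Sum.inl 2)).1 = 1 := rfl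
    have e3 : (ptv w (Sum.inl 2)).1 = 1 := rfl
    have hq0 : (aeval (vv0 S) (hq k q) : A) = 0 := by
      rw [aeval_hq]
      change brv (vv0 S) (lab S s) (lab S u) * brv (vv0 S) (Sum.inl 2) (lab S v) +
        brv (vv0 S) (lab S s) (lab S v) * brv (vv0 S) (Sum.inl 2) (lab S u) = 0
      rw [brv_aff _ (ptv_ne _ (lab_ne hs)) (ptv_ne _ (lab_ne hu)),
        brv_aff _ (ptv_ne _ e1) (ptv_ne _ (lab_ne hv)),
        brv_aff _ (ptv_ne _ (lab_ne hs)) (ptv_ne _ (lab_ne hv)),
        brv_aff _ (ptv_ne _ e1) (ptv_ne _ (lab_ne hu)), ptv_lab hs, ptv_lab hu, ptv_lab hv, e2]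
      exact h
    have hq1 := hH q (by
      classical exact Finset.mem_filter.mpr ⟨Finset.mem_univ _, hq0, 1, Or.inr rfl⟩)
    rw [aeval_hq] at hq1
    change brv w (lab S s) (lab S u) * brv w (Sum.inl 2) (lab S v) +
        brv w (lab S s) (lab S v) * brv w (Sum.inl 2) (lab S u) = 0 at hq1
    rw [brv_aff _ (ptv_ne _ (lab_ne hs)) (ptv_ne _ (lab_ne hu)),
        brv_aff _ (ptv_ne _ e1) (ptv_ne _ (lab_ne hv)),
        brv_aff _ (ptv_ne _ (lab_ne hs)) (ptv_ne _ (lab_ne hv)),
        brv_aff _ (ptv_ne _ e1) (ptv_ne _ (lab_ne hu)), e3] at hq1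
    exact hq1

end fam

section opens

variable {k : Type} [Field k] (h2 : (2 : k) ≠ 0) (A : Type) [CommRing A] [IsDomain A] [Algebra k A]
  [Algebra.FiniteType k A]

include h2

/-- Over a prime field: an affine variety has a non-empty open subscheme that is a space of harmonic
configurations. -/
theorem exists_harm (hF : Frac k) : ∃ (f : A) (n : ℕ) (H : Finset (Fin 4 → Fin 3 ⊕ Fin n)), f ≠ 0 ∧
    Meets H ∧ Nonempty (Localization.Away f ≃ₐ[k] Pc (fun h : H => hq k h.1) (disc k n)) := by
  obtain ⟨m, φ, G0, hs, hK, hc⟩ := presents_frac hF A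
  let a : Fin m → A := fun i => φ (X i)
  have hφ : φ = aeval a := by
    apply MvPolynomial.algHom_ext
    intro i
    rw [aeval_X]
  rw [hφ] at hs hK
  obtain ⟨S0, hS0⟩ := full_start (∅ : Set k) a
  obtain ⟨S, -, hS, hr⟩ := good_finset h2 G0 (fun g hg e => Or.inr (hc g hg e)) hS0
  refine ⟨aeval (vv0 S) (disc k (tt S).card), (tt S).card, HH k S, disc_ne hS.zero hS.one,
    meets_HH, ?_⟩
  refine core_iso hs G0 hK hS hr _ ?_ ?_
  · rintro ⟨h, hh⟩
    classical
    exact (Finset.mem_filter.mp hh).2.1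
  · refine hrep_univ _ ?_ ?_
    · intro h hh
      rw [pc_aeval]
      exact pc_rel (fun h : HH k S => hq k h.1) (disc k (tt S).card) ⟨h, hh⟩
    · intro c hc
      exact absurd hc (Set.notMem_empty _)

/-- Over any field: an affine variety has a non-empty open subscheme that is a space of harmonic
configurations with prescribed constants. -/
theorem exists_harmC : ∃ (f : A) (n : ℕ) (H : Finset (Fin 4 → Fin 3 ⊕ Fin n))
    (K : Finset (Fin n × k)), f ≠ 0 ∧ Meets H ∧
    Nonempty (Localization.Away f ≃ₐ[k]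
      Pc (Sum.elim (fun h : H => hq k h.1) fun c : K => X c.1.1 - C c.1.2) (disc k n)) := by
  obtain ⟨m, φ, G0, hs, hK, hc⟩ := presents_univ (R := k) A
  let a : Fin m → A := fun i => φ (X i)
  have hφ : φ = aeval a := by
    apply MvPolynomial.algHom_ext
    intro i
    rw [aeval_X]
  rw [hφ] at hs hK
  obtain ⟨S0, hS0⟩ := full_start (Set.univ : Set k) a
  obtain ⟨S, -, hS, hr⟩ := good_finset h2 G0 (fun g hg e => Or.inl (Set.mem_univ _)) hS0
  refine ⟨aeval (vv0 S) (disc k (tt S).card), (tt S).card, HH k S, KK Set.univ S,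
    disc_ne hS.zero hS.one, meets_HH, ?_⟩
  refine core_iso hs G0 hK hS hr _ ?_ ?_
  · rintro (⟨h, hh⟩ | ⟨q, hq⟩)
    · classical
      exact (Finset.mem_filter.mp hh).2.1
    · change (aeval (vv0 S) (X q.1 - C q.2) : A) = 0
      rw [map_sub, aeval_X, aeval_C, kk_eq hq, sub_self]
  · refine hrep_univ _ ?_ ?_
    · intro h hh
      rw [pc_aeval]
      exact pc_rel (Sum.elim (fun h : HH k S => hq k h.1)
        fun c : KK Set.univ S => X c.1.1 - C c.1.2) (disc k (tt S).card) (Sum.inl ⟨h, hh⟩)
    · intro c hc i hi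
      have h3 := pc_rel (Sum.elim (fun h : HH k S => hq k h.1)
        fun c : KK Set.univ S => X c.1.1 - C c.1.2) (disc k (tt S).card)
        (Sum.inr ⟨(i, c), kk_mem hc hi⟩)
      have h4 : pc (Sum.elim (fun h : HH k S => hq k h.1)
        fun c : KK Set.univ S => X c.1.1 - C c.1.2) (disc k (tt S).card) (X i - C c) = 0 := h3
      rw [map_sub, sub_eq_zero] at h4
      have h5 : pc (Sum.elim (fun h : HH k S => hq k h.1)
        fun c : KK Set.univ S => X c.1.1 - C c.1.2) (disc k (tt S).card) (C c) =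
          algebraMap k _ c := AlgHom.commutes _ c
      rw [← h5, ← h4]
      rfl

end opens

section props

variable {k : Type} [Field k] [PerfectField k] {P : Sch k → Prop} (hP : Bnd True P)

include hP

/-- It is enough to find, for every smooth affine variety of dimension at most `n`, a non-empty open
subscheme for which the property is true. -/
theorem of_open {n : ℕ} (h : ∀ (A : Type) [CommRing A] [IsDomain A] [Algebra k A]
    [Algebra.Smooth k A], ringKrullDim A ≤ n → ∃ f : A, f ≠ 0 ∧ P (aff k (Localization.Away f)))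
    (X : Sch k) (hX : FT True X) (hn : topologicalKrullDim X.left ≤ n) : P X := by
  refine of_affine_dim hP (fun A _ _ _ hA => ?_) X hX hn
  refine noeth hP (fun B _ _ hB => p_empty hP B hB) fun p hp => ?_
  obtain ⟨w, hw, hs⟩ := exists_smooth (k := k) (A ⧸ p)
  have hdom : IsDomain (Localization.Away w) := IsLocalization.Away.isDomain _ hw
  obtain ⟨f, hf, hPf⟩ := h (Localization.Away w)
    ((dim_away w).trans ((ringKrullDim_quotient_le p).trans hA))
  obtain ⟨j, g, hg⟩ := IsLocalization.Away.surj w f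
  have hu : IsUnit (algebraMap (A ⧸ p) (Localization.Away w) w ^ j) :=
    (IsLocalization.Away.algebraMap_isUnit w).pow j
  have hass : Associated (algebraMap (A ⧸ p) (Localization.Away w) g) f := by
    rw [← hg]
    exact associated_mul_unit_left f _ hu
  have hloc : IsLocalization.Away (w * g) (Localization.Away f) :=
    IsLocalization.Away.mul_of_associated w g f hass
  have hg0 : g ≠ 0 := by
    rintro rfl
    rw [map_zero] at hg
    rcases mul_eq_zero.mp hg with h1 | h1
    · exact hf h1
    · exact hu.ne_zero h1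
  refine ⟨w * g, mul_ne_zero hw hg0, ?_⟩
  let e : Localization.Away f ≃ₐ[A ⧸ p] Localization.Away (w * g) :=
    IsLocalization.algEquiv (Submonoid.powers (w * g)) _ _
  have hft : Algebra.FiniteType k (Localization.Away w) :=
    Algebra.FiniteType.trans (S := A ⧸ p) inferInstance inferInstance
  have hft2 : Algebra.FiniteType k (Localization.Away f) :=
    Algebra.FiniteType.trans (S := Localization.Away w) inferInstance inferInstance
  exact iso_alg hP.toUni (e.restrictScalars k) hPf

end props

section smooth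

variable {k : Type} [Field k] {A : Type} [CommRing A] [IsDomain A] [Algebra k A]

/-- properties of the open subschemes -/
lemma open_props {n : ℕ} [Algebra.Smooth k A] (hn : ringKrullDim A ≤ n) {f : A} (hf : f ≠ 0)
    {B : Type} [CommRing B] [Algebra k B] (e : Localization.Away f ≃ₐ[k] B) :
    Smooth (aff k B).hom ∧ IsIntegral (aff k B).left ∧ topologicalKrullDim (aff k B).left ≤ n := by
  have h1 : Algebra.Smooth A (Localization.Away f) := Algebra.Smooth.of_isLocalization_Away f
  have h2 : Algebra.Smooth k (Localization.Away f) := Algebra.Smooth.comp k A _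
  have h3 : Algebra.Smooth k B := Algebra.Smooth.of_equiv e
  have h4 : IsDomain (Localization.Away f) := IsLocalization.Away.isDomain _ hf
  have h5 : IsDomain B := e.toMulEquiv.isDomain_iff.mp h4
  refine ⟨smooth_aff h3, ?_, ?_⟩
  · change IsIntegral (Spec (CommRingCat.of B))
    infer_instance
  · rw [topDim_aff, ← ringKrullDim_eq_of_ringEquiv e.toRingEquiv]
    exact (dim_away f).trans hn

end smooth

section main

variable {k : Type} [Field k] [PerfectField k] {P : Sch k → Prop} (hP : Bnd True P)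
  (h2 : (2 : k) ≠ 0)

include hP h2

/-- **Prime fields, dimension by dimension.** -/
theorem harm_iff (hF : Frac k) (n : ℕ) :
    (∀ X : Sch k, FT True X → topologicalKrullDim X.left ≤ n → P X) ↔
      ∀ (m : ℕ) (H : Finset (Fin 4 → Fin 3 ⊕ Fin m)), Meets H → Smooth (harmS k m H).hom →
        IsIntegral (harmS k m H).left → topologicalKrullDim (harmS k m H).left ≤ n →
        P (harmS k m H) := by
  constructor
  · intro h m H _ _ _ hd
    exact h _ (ft_aff True) hd
  · intro h X hX hn
    refine of_open hP (fun A _ _ _ _ hA => ?_) X hX hn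
    obtain ⟨f, m, H, hf, hm, ⟨e⟩⟩ := exists_harm h2 A hF
    obtain ⟨p1, p2, p3⟩ := open_props hA hf e
    have h3 := h m H hm
    rw [harmS_eq] at h3
    exact ⟨f, hf, iso_alg hP.toUni e.symm (h3 p1 p2 p3)⟩

/-- **All fields, dimension by dimension.** -/
theorem harmC_iff (n : ℕ) :
    (∀ X : Sch k, FT True X → topologicalKrullDim X.left ≤ n → P X) ↔
      ∀ (m : ℕ) (H : Finset (Fin 4 → Fin 3 ⊕ Fin m)) (K : Finset (Fin m × k)), Meets H →
        Smooth (harmSC k m H K).hom → IsIntegral (harmSC k m H K).left →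
        topologicalKrullDim (harmSC k m H K).left ≤ n → P (harmSC k m H K) := by
  constructor
  · intro h m H K _ _ _ hd
    exact h _ (ft_aff True) hd
  · intro h X hX hn
    refine of_open hP (fun A _ _ _ _ hA => ?_) X hX hn
    obtain ⟨f, m, H, K, hf, hm, ⟨e⟩⟩ := exists_harmC h2 A
    obtain ⟨p1, p2, p3⟩ := open_props hA hf e
    have h3 := h m H K hm
    rw [harmSC_eq] at h3
    exact ⟨f, hf, iso_alg hP.toUni e.symm (h3 p1 p2 p3)⟩

end main

end Pool.Agent.H502.HQ
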